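import Mathlib
import Pool.Agent.Lib.helper29.Ent2

set_option autoImplicit false

open MeasureTheory Pool.Agent.Lib.H29.Ent

namespace Pool.Agent.Results.MP_e841a3_pr.Outlier

theorem result : ∃ M : ℝ, ∀ C : ℝ, ∃ (n : ℕ) (f h : ℝ → ℝ), 1 ≤ n ∧ Good f ∧ Good h ∧
    ∫ x, x * f x = 0 ∧ ∫ x, x ^ 2 * f x = 1 ∧ Integrable (fun x => x ^ 4 * f x) ∧
    ∫ x, x ^ 4 * f x ≤ M ∧
    (Measure.pi fun _ : Fin n => law f).map (fun x => (∑ i, x i) / √n) = law h ∧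
    C / n * J f < J h ∧ C / n * D f < D h := by
  refine ⟨1216, fun C => ?_⟩
  obtain ⟨k, hk⟩ := exists_nat_gt (20 * |C|)
  obtain ⟨a, f, h, ha, h1, h2, h3, h4, h5, h6, h7, j0, j1, j2, d0, d1, d2⟩ := main (k + 1) (by omega)
  have hc : C / (k + 1 : ℕ) < 1 / 20 := by
    rw [div_lt_iff₀ (by positivity)]
    push_cast
    linarith [le_abs_self C]
  have key : ∀ x, 0 ≤ x → x ≤ 2 * a → C / (k + 1 : ℕ) * x < a / 10 := fun x h0 h1 => by
    rcases h0.eq_or_lt with rfl | h0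
    · rw [mul_zero]; positivity
    · linarith [mul_lt_mul_of_pos_right hc h0]
  exact ⟨k + 1, f, h, by omega, h1, h2, h3, h4, h5, h6, h7, (key _ j0 j1).trans_le j2,
    (key _ d0 d1).trans_le d2⟩

end Pool.Agent.Results.MP_e841a3_pr.Outlier
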